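import Pool.Agent.Helper94.KC.GoalsC

set_option autoImplicit false

namespace Pool.Agent.Helper73.KC

open Pool.Agent.Helper94.KC
open scoped Classical
open Finset

theorem card_symmDiff' {α : Type} [DecidableEq α] (X Y : Finset α) :
    (symmDiff X Y).card + 2 * (X ∩ Y).card = X.card + Y.card := by
  have h1 : (symmDiff X Y).card = (X \ Y).card + (Y \ X).card := by
    rw [symmDiff_def, Finset.sup_eq_union, Finset.card_union_of_disjoint]
    exact disjoint_sdiff_sdiff
  have h2 := Finset.card_sdiff_add_card_inter X Y
  have h3 := Finset.card_sdiff_add_card_inter Y X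
  rw [Finset.inter_comm Y X] at h3
  omega

theorem card_symmDiff_le {α : Type} [DecidableEq α] (X Y : Finset α) :
    (symmDiff X Y).card ≤ X.card + Y.card := by
  have := card_symmDiff' X Y
  omega

theorem toFinset_inj {V : Type} {e e' : Sym2 V} (h : e.toFinset = e'.toFinset) : e = e' := by
  apply Sym2.ext
  intro x
  rw [← Sym2.mem_toFinset, h, Sym2.mem_toFinset]

theorem wed_card {V : Type} {G : SimpleGraph V} {p q : V} (c : G.Walk p q) (hc : c.IsTrail) :
    (wed c).card = c.length := by
  unfold wed
  rw [List.toFinset_card_of_nodup, List.length_map, SimpleGraph.Walk.length_edges]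
  exact (hc.edges_nodup).map (fun e e' h => toFinset_inj h)

theorem wed_filter {V : Type} {G : SimpleGraph V} {p q : V} (c : G.Walk p q) (hc : c.IsTrail)
    (v : V) : ((wed c).filter (fun e => v ∈ e)).card = c.edges.countP (fun e => v ∈ e) := by
  have h1 : (wed c).filter (fun e => v ∈ e)
      = ((c.edges.filter (fun e => v ∈ e)).map (fun e => e.toFinset)).toFinset := by
    ext e
    unfold wed
    simp only [Finset.mem_filter, List.mem_toFinset, List.mem_map, List.mem_filter,
      decide_eq_true_eq]
    constructor
    · rintro ⟨⟨a, ha, rfl⟩, hv⟩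
      exact ⟨a, ⟨ha, Sym2.mem_toFinset.1 hv⟩, rfl⟩
    · rintro ⟨a, ⟨ha, hv⟩, rfl⟩
      exact ⟨⟨a, ha, rfl⟩, Sym2.mem_toFinset.2 hv⟩
  rw [h1, List.toFinset_card_of_nodup, List.length_map, List.countP_eq_length_filter]
  exact ((hc.edges_nodup).filter _).map (fun e e' h => toFinset_inj h)

theorem wed_par {V : Type} {G : SimpleGraph V} {p q : V} (c : G.Walk p q) (hc : c.IsTrail)
    (hpq : p ≠ q) (v : V) :
    Even ((wed c).filter (fun e => v ∈ e)).card ↔ v ≠ p ∧ v ≠ q := by
  rw [wed_filter c hc v, hc.even_countP_edges_iff]
  exact ⟨fun h => h hpq, fun h _ => h⟩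

theorem wed_sub {V : Type} [Fintype V] (T : Finset (Finset V)) {p q : V} (c : (sk T).Walk p q) :
    wed c ⊆ ed T := by
  intro e he
  unfold wed at he
  rw [List.mem_toFinset, List.mem_map] at he
  obtain ⟨s, hs, rfl⟩ := he
  have h1 := c.edges_subset_edgeSet hs
  induction s using Sym2.ind with
  | _ a b =>
    rw [SimpleGraph.mem_edgeSet] at h1
    obtain ⟨hab, t, ht, ha, hb⟩ := h1
    unfold ed
    rw [Finset.mem_filter]
    refine ⟨Finset.mem_univ _, ?_, t, ht, ?_⟩
    · have : (s(a, b)).toFinset = {a, b} := by ext x; simp [Sym2.mem_toFinset]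
      rw [this, Finset.card_pair hab]
    · intro x hx
      rw [Sym2.mem_toFinset, Sym2.mem_iff] at hx
      rcases hx with rfl | rfl
      · exact ha
      · exact hb

theorem even_symm {V : Type} {z z' : Finset (Finset V)}
    (h : ∀ v, Even (z.filter (fun e => v ∈ e)).card ↔ Even (z'.filter (fun e => v ∈ e)).card) :
    Even2 (symmDiff z z') := by
  intro v
  have h1 : (symmDiff z z').filter (fun e => v ∈ e)
      = symmDiff (z.filter (fun e => v ∈ e)) (z'.filter (fun e => v ∈ e)) := by
    ext e
    simp only [Finset.mem_filter, Finset.mem_symmDiff]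
    tauto
  have h2 := card_symmDiff' (z.filter (fun e => v ∈ e)) (z'.filter (fun e => v ∈ e))
  rw [← h1] at h2
  have h3 := h v
  have h4 : Even ((z.filter (fun e => v ∈ e)).card + (z'.filter (fun e => v ∈ e)).card) := by
    rw [Nat.even_add]; exact h3
  rw [← h2, Nat.even_add] at h4
  exact h4.2 (even_two_mul _)

theorem sh (hEV : StmtEV) : StmtSH := by
  intro V _ T hT x w hw
  obtain ⟨hbd, hev, -, hcyc, -, -⟩ := hEV V T hT
  obtain ⟨hwE, hwC, hwS⟩ := hcyc x w hw.cyc
  have hB : ∀ z z', Bounds T z → Bounds T z' → Bounds T (symmDiff z z') := by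
    rintro z z' ⟨D, hD, rfl⟩ ⟨D', hD', rfl⟩
    refine ⟨symmDiff D D', ?_, hbd D D'⟩
    intro t ht
    rw [Finset.mem_symmDiff] at ht
    rcases ht with ht | ht
    · exact hD ht.1
    · exact hD' ht.1
  constructor
  · intro A hA y hy hE hBA
    have h1 := hw.min (symmDiff (wed w) (symmDiff A y)) ?_ (hev _ _ hwE hE) ?_
    · have h2 : symmDiff (wed w) (symmDiff A y) = symmDiff (wed w \ A) y := by
        rw [← symmDiff_assoc]
        congr 1
        ext e
        rw [Finset.mem_symmDiff, Finset.mem_sdiff]
        constructor
        · rintro (h | h)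
          · exact h
          · exact absurd (hA h.1) h.2
        · intro h; exact Or.inl h
      rw [h2] at h1
      have h3 := card_symmDiff_le (wed w \ A) y
      have h4 := Finset.card_sdiff_add_card_eq_card hA
      omega
    · intro e he
      rw [Finset.mem_symmDiff] at he
      rcases he with he | he
      · exact hwS he.1
      · have := he.1
        rw [Finset.mem_symmDiff] at this
        rcases this with h | h
        · exact hwS (hA h.1)
        · exact hy h.1
    · intro hbnd
      apply hw.nb
      have := hB _ _ hbnd hBA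
      rwa [symmDiff_assoc, symmDiff_self, symmDiff_bot] at this
  · intro p q A B b hpq hA hB' hdis hun
    set c := b.bypass with hc
    have hcP : c.IsPath := b.bypass_isPath
    have hcl : c.length ≤ b.length := b.length_bypass_le_length
    have hAt := hA.isTrail
    have hBt := hB'.isTrail
    have hct := hcP.isTrail
    have hEA : Even2 (symmDiff (wed A) (wed c)) := even_symm fun v => by
      rw [wed_par A hAt hpq, wed_par c hct hpq]
    have hEB : Even2 (symmDiff (wed B) (wed c)) := even_symm fun v => by
      rw [wed_par B hBt hpq, wed_par c hct hpq]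
    have hwl : w.length = A.length + B.length := by
      rw [← hwC, ← hun, Finset.card_union_of_disjoint hdis, wed_card A hAt, wed_card B hBt]
    have hsub : ∀ {a : (sk T).Walk p q}, symmDiff (wed a) (wed c) ⊆ ed T := by
      intro a e he
      rw [Finset.mem_symmDiff] at he
      rcases he with he | he
      · exact wed_sub T a he.1
      · exact wed_sub T c he.1
    have hcomb : symmDiff (symmDiff (wed A) (wed c)) (symmDiff (wed B) (wed c)) = wed w := by
      rw [← hun]
      ext e
      have hd : e ∈ wed A → e ∉ wed B := fun h => Finset.disjoint_left.1 hdis h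
      simp only [Finset.mem_symmDiff, Finset.mem_union]
      tauto
    by_cases h1 : Bounds T (symmDiff (wed A) (wed c))
    · by_cases h2 : Bounds T (symmDiff (wed B) (wed c))
      · exact absurd (hcomb ▸ hB _ _ h1 h2) hw.nb
      · have h3 := hw.min _ hsub hEB h2
        have h4 := card_symmDiff_le (wed B) (wed c)
        rw [wed_card B hBt, wed_card c hct] at h4
        have : A.length ≤ b.length := by omega
        exact (min_le_left _ _).trans this
    · have h3 := hw.min _ hsub hEA h1
      have h4 := card_symmDiff_le (wed A) (wed c)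
      rw [wed_card A hAt, wed_card c hct] at h4
      have : B.length ≤ b.length := by omega
      exact (min_le_right _ _).trans this

end Pool.Agent.Helper73.KC
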